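import Pool.Agent.Helper7.Isotypic.Proof

set_option autoImplicit false

open FirstOrder FirstOrder.Language Pool.Agent.Helper7.Isotypic

namespace Pool.Agent.Results.MP_74a3dd_lc.NotFinitelyGenerated

/-- There are a signature with finitely many operation symbols, all of them unary, and no relation
symbols, and two isotypic algebras `H₁`, `H₂` of this signature such that `H₁` is generated by one
element and `H₂` is not finitely generated. -/
theorem result : ∃ (L : FirstOrder.Language.{0, 0}) (H₁ H₂ : Type) (_ : L.Structure H₁)
    (_ : L.Structure H₂),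
    (∀ n, IsEmpty (L.Relations n)) ∧ (∀ n, n ≠ 1 → IsEmpty (L.Functions n)) ∧
    (∀ n, Finite (L.Functions n)) ∧
    Isotypic L H₁ H₂ ∧
    (∃ a : H₁, Substructure.closure L {a} = ⊤) ∧ ¬ Structure.FG L H₂ :=
  Pool.Agent.Helper7.Isotypic.main

end Pool.Agent.Results.MP_74a3dd_lc.NotFinitelyGenerated
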